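import Pool.Agent.H60.PZ.SecL
import Pool.Agent.H96.PZ.Stmts
import Pool.Agent.H89.ZCL.ChsTls2

/-!
# The slope in families with side information

`pzo_thm`: the statement `PZOStmt` from `ZRTStmt`.
-/

set_option autoImplicit false

namespace Pool.PZ

open Finset Real
open Pool.Agent.H49.Ent Pool.Agent.H32.Dense Pool.STK Pool.KA Pool.KSAT Pool.K2S Pool.PB Pool.KS6
open Pool.ZCL

variable {m J : ℕ}

/-! ### Gluing -/

theorem gr_glue {G : Fam m J} {κ : Type} {c : G.Ω → κ} {B : G.Ω → Prop} (hS : Sel G c B)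
    {i : Fin m} {K ρ : ℝ}
    (h : ∀ ω, 0 < G.p ω → B ω → ∀ hl : IsLaw (cond G.p c (c ω)),
      GrP i K ρ (Fam.pt (G.res c (c ω) hl)) (G.res c (c ω) hl).d
        (fun ω' => B ω' ∧ c ω' = c ω)) :
    GrP i K ρ (Fam.pt G) G.d (fun ω => B ω ∧ G.p ω ≠ 0) := by
  classical
  have hp := G.isLaw
  obtain ⟨f, hf⟩ := sel_choice hS
    (α := (((Fin m → ℤ) × (ℕ × G.ζ)) → ℝ) × (((Fin m → ℤ) × (ℕ × G.ζ)) → Fin m → ℝ))
    (P := fun f ω => f.2 (Fam.pt G ω) i = 0 ∧ (∀ j, |f.2 (Fam.pt G ω) j| ≤ K) ∧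
      |G.d ω i - f.1 (Fam.pt G ω) - ∑ j, f.2 (Fam.pt G ω) j * G.d ω j| ≤ ρ)
    (fun ω hω hB => by
      obtain ⟨n, s, h1⟩ := h ω hω hB (isLaw_sec hp c hω)
      exact ⟨(n, s), fun ω' hω' => h1 ω' hω'⟩)
  exact ⟨fun u => (f u.2.2).1 u, fun u => (f u.2.2).2 u, fun ω hω => hf ω hω.1 hω.2⟩

theorem tilt_glue {G : Fam m J} {κ : Type} {c : G.Ω → κ} {B : G.Ω → Prop} (hS : Sel G c B)
    {i₀ iu iN : Fin m} {K γ ρ : ℝ}
    (h : ∀ ω, 0 < G.p ω → B ω → ∀ hl : IsLaw (cond G.p c (c ω)),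
      TiltP i₀ iu iN K γ ρ (Fam.pt (G.res c (c ω) hl)) (G.res c (c ω) hl).d
        (fun ω' => B ω' ∧ c ω' = c ω)) :
    TiltP i₀ iu iN K γ ρ (Fam.pt G) G.d (fun ω => B ω ∧ G.p ω ≠ 0) := by
  classical
  have hp := G.isLaw
  obtain ⟨f, hf⟩ := sel_choice hS
    (α := (((Fin m → ℤ) × (ℕ × G.ζ)) → ℝ) × (((Fin m → ℤ) × (ℕ × G.ζ)) → ℝ) ×
      (((Fin m → ℤ) × (ℕ × G.ζ)) → ℝ))
    (P := fun f ω => |f.2.1 (Fam.pt G ω)| ≤ K ∧ |f.2.2 (Fam.pt G ω)| ≤ K ∧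
      γ ≤ |f.2.2 (Fam.pt G ω)| ∧
      |G.d ω iu - f.1 (Fam.pt G ω) - f.2.1 (Fam.pt G ω) * G.d ω i₀ -
        f.2.2 (Fam.pt G ω) * G.d ω iN| ≤ ρ)
    (fun ω hω hB => by
      obtain ⟨n, s, t, h1⟩ := h ω hω hB (isLaw_sec hp c hω)
      exact ⟨(n, s, t), fun ω' hω' => h1 ω' hω'⟩)
  exact ⟨fun u => (f u.2.2).1 u, fun u => (f u.2.2).2.1 u, fun u => (f u.2.2).2.2 u,
    fun ω hω => hf ω hω.1 hω.2⟩

theorem rot_glue {G : Fam m J} {κ : Type} {c : G.Ω → κ} {B : G.Ω → Prop} (hS : Sel G c B)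
    {i₀ iu : Fin m} {K μ : ℝ} {x : ℕ}
    (h : ∀ ω, 0 < G.p ω → B ω → ∀ hl : IsLaw (cond G.p c (c ω)),
      RotP i₀ iu K μ (Fam.pt (G.res c (c ω) hl)) (slam (G.res c (c ω) hl) x)
        (G.res c (c ω) hl).d (fun ω' => B ω' ∧ c ω' = c ω)) :
    RotP i₀ iu K μ (Fam.pt G) (slam G x) G.d (fun ω => B ω ∧ G.p ω ≠ 0) := by
  classical
  have hp := G.isLaw
  obtain ⟨f, hf⟩ := sel_choice hS
    (α := (((Fin m → ℤ) × (ℕ × G.ζ)) → ℝ) × (((Fin m → ℤ) × (ℕ × G.ζ)) → ℝ) ×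
      (((Fin m → ℝ) × (Fin m → ℝ)) × G.ζ × ℕ → ℝ))
    (P := fun f ω => |f.2.1 (Fam.pt G ω)| ≤ K ∧
      |G.d ω iu - f.1 (Fam.pt G ω) - f.2.1 (Fam.pt G ω) * G.d ω i₀| ≤ μ ∧
      |f.2.1 (Fam.pt G ω) - f.2.2 (slam G x ω)| ≤ μ)
    (fun ω hω hB => by
      obtain ⟨n, s, ζ, h1⟩ := h ω hω hB (isLaw_sec hp c hω)
      exact ⟨(n, s, ζ), fun ω' hω' => h1 ω' hω'⟩)
  exact ⟨fun u => (f u.2.2).1 u, fun u => (f u.2.2).2.1 u, fun v => (f v.2.1).2.2 v,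
    fun ω hω => hf ω hω.1 hω.2⟩

/-- The bad properties of a plank zoom, as a list. -/
def pzL (i₀ iu iN : Fin 3) (r g h : ℝ) (i a : ℕ) : Stat 3 := fun J F B =>
  (a ≤ J ∧ BadTP 3 r (1 / ((i : ℝ) + 1)) a J F B) ∨
  (a = J + 1 ∧ BadS 3 1 (1 / ((i : ℝ) + 1)) J F B) ∨
  (a = J + 2 ∧ BadC i₀ (1 / ((i : ℝ) + 1)) J F B) ∨
  (a = J + 3 ∧ BadC iN (1 / ((i : ℝ) + 1)) J F B) ∨
  (a = J + 4 ∧ Tilt i₀ iu iN g h J F B)

theorem pzL_of_bad {i₀ iu iN : Fin 3} {r g h : ℝ} {i : ℕ} {F : Fam 3 J} {B : F.Ω → Prop}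
    (hB : pzBad i₀ iu iN r g h i J F B) : lBad (pzL i₀ iu iN r g h) i J F B := by
  rcases hB with (h1 | ⟨P, h1, h2, h3⟩) | h1 | h1 | h1
  · exact ⟨J + 1, by omega, Or.inr (Or.inl ⟨rfl, h1⟩)⟩
  · exact ⟨P, by omega, Or.inl ⟨h1, h1, h2, h3⟩⟩
  · exact ⟨J + 2, by omega, Or.inr (Or.inr (Or.inl ⟨rfl, h1⟩))⟩
  · exact ⟨J + 3, by omega, Or.inr (Or.inr (Or.inr (Or.inl ⟨rfl, h1⟩)))⟩
  · exact ⟨J + 4, by omega, Or.inr (Or.inr (Or.inr (Or.inr ⟨rfl, h1⟩)))⟩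

theorem glu_pzL {i₀ iu iN : Fin 3} {r g h : ℝ} (i a : ℕ) : Glu (pzL i₀ iu iN r g h i a) := by
  intro J G κ c B hS hB hb
  have hp := G.isLaw
  obtain ⟨ω₀, h1, h2⟩ : ∃ ω, 0 < G.p ω ∧ B ω := by
    by_contra hcon
    push Not at hcon
    have : Pe G.p B ≤ 0 := by
      classical
      rw [Pe_eq]
      refine Finset.sum_nonpos fun ω _ => ?_
      split_ifs with hω
      · by_contra h3
        push Not at h3
        exact hcon ω h3 hω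
      · exact le_rfl
    linarith
  rcases hb ω₀ h1 h2 (isLaw_sec hp c h1) with ⟨ha, -⟩ | ⟨ha, -⟩ | ⟨ha, -⟩ | ⟨ha, -⟩ | ⟨ha, -⟩
  · refine Or.inl ⟨ha, glu_tail _ _ _ J G κ c B hS hB fun ω hω hBω hl => ?_⟩
    rcases hb ω hω hBω hl with ⟨-, h3⟩ | ⟨h3, -⟩ | ⟨h3, -⟩ | ⟨h3, -⟩ | ⟨h3, -⟩
    · exact h3
    all_goals omega
  · refine Or.inr (Or.inl ⟨ha, plu_glue hS fun ω hω hBω hl => ?_⟩)
    rcases hb ω hω hBω hl with ⟨h3, -⟩ | ⟨-, h3⟩ | ⟨h3, -⟩ | ⟨h3, -⟩ | ⟨h3, -⟩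
    · omega
    · exact h3
    all_goals omega
  · refine Or.inr (Or.inr (Or.inl ⟨ha, gr_glue hS fun ω hω hBω hl => ?_⟩))
    rcases hb ω hω hBω hl with ⟨h3, -⟩ | ⟨h3, -⟩ | ⟨-, h3⟩ | ⟨h3, -⟩ | ⟨h3, -⟩
    · omega
    · omega
    · exact h3
    all_goals omega
  · refine Or.inr (Or.inr (Or.inr (Or.inl ⟨ha, gr_glue hS fun ω hω hBω hl => ?_⟩)))
    rcases hb ω hω hBω hl with ⟨h3, -⟩ | ⟨h3, -⟩ | ⟨h3, -⟩ | ⟨-, h3⟩ | ⟨h3, -⟩
    · omega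
    · omega
    · omega
    · exact h3
    · omega
  · refine Or.inr (Or.inr (Or.inr (Or.inr ⟨ha, tilt_glue hS fun ω hω hBω hl => ?_⟩)))
    rcases hb ω hω hBω hl with ⟨h3, -⟩ | ⟨h3, -⟩ | ⟨h3, -⟩ | ⟨h3, -⟩ | ⟨-, h3⟩
    · omega
    · omega
    · omega
    · omega
    · exact h3

theorem sup_pzBad {i₀ iu iN : Fin 3} {r g h : ℝ} (i J : ℕ) (F : Fam 3 J) (A : F.Ω → Prop)
    (hA : pzBad i₀ iu iN r g h i J F A) :
    pzBad i₀ iu iN r g h i J F (fun ω => A ω ∧ F.p ω ≠ 0) := by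
  rcases hA with h1 | h1 | h1 | h1
  · exact Or.inl (stdBad_inv i J F A h1)
  · exact Or.inr (Or.inl (GrP.hered _ _ _ _ _ A _ (fun ω hω => hω.1) h1))
  · exact Or.inr (Or.inr (Or.inl (GrP.hered _ _ _ _ _ A _ (fun ω hω => hω.1) h1)))
  · exact Or.inr (Or.inr (Or.inr (TiltP.hered _ _ _ _ _ _ _ _ A _ (fun ω hω => hω.1) h1)))

/-! ### The class -/

/-- In a class of zooms there are no large bad events. -/
theorem zc_not {Good : ∀ J : ℕ, Fam m J → Prop} {Bad : ℕ → Stat m} {ψ : ℕ → ℝ}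
    (hψ : ∀ i, 0 < ψ i) (i : ℕ) :
    Clg (zc m Good Bad ψ) (fun J F A => ∀ B : F.Ω → Prop, Sub B A →
      Real.exp (-(ψ i / 2 * J)) * Pe F.p A ≤ Pe F.p B → ¬ Bad i J F B) := by
  have hψi := hψ i
  refine Clg.of (τ := min (1 / ((i : ℝ) + 1)) (ψ i / 2))
    (lt_min (by positivity) (by positivity)) 0 fun J _ F A hS => ?_
  intro B hB hPB hBad
  have hJ : (0 : ℝ) ≤ J := Nat.cast_nonneg J
  have hiτ : (i : ℝ) * min (1 / ((i : ℝ) + 1)) (ψ i / 2) ≤ 1 := by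
    have h1 : min (1 / ((i : ℝ) + 1)) (ψ i / 2) ≤ 1 / ((i : ℝ) + 1) := min_le_left _ _
    have h2 : (0 : ℝ) ≤ i := Nat.cast_nonneg i
    calc (i : ℝ) * min (1 / ((i : ℝ) + 1)) (ψ i / 2) ≤ i * (1 / ((i : ℝ) + 1)) :=
          mul_le_mul_of_nonneg_left h1 h2
      _ ≤ 1 := by
          rw [mul_one_div, div_le_one (by positivity)]
          linarith
  refine hS.1.2.2.2.2 i hiτ B ?_ hBad
  refine le_trans ?_ hPB
  refine le_trans ?_ (mul_le_mul_of_nonneg_left hS.2 (Real.exp_pos _).le)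
  rw [← Real.exp_add]
  refine Real.exp_le_exp.2 ?_
  have h1 : min (1 / ((i : ℝ) + 1)) (ψ i / 2) * (J : ℝ) ≤ ψ i / 2 * J :=
    mul_le_mul_of_nonneg_right (min_le_right _ _) hJ
  linarith

/-- The tail is not full. -/
theorem zc_tls {Good : ∀ J : ℕ, Fam m J → Prop} {Bad : ℕ → Stat m} {ψ : ℕ → ℝ} {r : ℝ}
    (hr : 0 < r) (hψ : ∀ i, 0 < ψ i)
    (hBad : ∀ (i J : ℕ) (F : Fam m J) (A : F.Ω → Prop),
      BadT m r (1 / ((i : ℝ) + 1)) J F A → Bad i J F A) : TLS (zc m Good Bad ψ) := by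
  refine ⟨r, hr, fun η hη => ?_⟩
  obtain ⟨i, hi⟩ := exists_inv hη
  have hψi := hψ i
  refine Clg.mono (J₂ := 0) (zc_not hψ i) ?_
  intro J _ F A hA P hP1 hP2
  by_contra hcon
  push Not at hcon
  have hJ : (0 : ℝ) ≤ J := Nat.cast_nonneg J
  refine hA A (fun _ h => h) ?_ (hBad i J F A ⟨P, hP1, hP2, lt_of_le_of_lt ?_ hcon⟩)
  · have h1 : Real.exp (-(ψ i / 2 * J)) ≤ 1 := by
      rw [Real.exp_le_one_iff]
      have : 0 ≤ ψ i / 2 * (J : ℝ) := by positivity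
      linarith
    calc _ ≤ 1 * Pe F.p A := mul_le_mul_of_nonneg_right h1 (Pe_nonneg F.isLaw A)
      _ = _ := one_mul _
  · have := mul_le_mul_of_nonneg_right hi hJ
    linarith

/-- The fans are spread at all scales. -/
theorem zc_sps {Good : ∀ J : ℕ, Fam m J → Prop} {Bad : ℕ → Stat m} {ψ : ℕ → ℝ} {j : ℕ}
    (hψ : ∀ i, 0 < ψ i)
    (hBad : ∀ (i J : ℕ) (F : Fam m J) (A : F.Ω → Prop),
      BadS m j (1 / ((i : ℝ) + 1)) J F A → Bad i J F A) : SPS (zc m Good Bad ψ) j := by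
  intro g hg
  obtain ⟨i, hi⟩ := exists_inv hg
  have hψi := hψ i
  refine ⟨ψ i / 2, by positivity, Clg.mono (J₂ := 0) (zc_not hψ i) ?_⟩
  intro J _ F A hA B hB hP hPl
  refine hA B hB hP (hBad i J F B ?_)
  exact hPl.mono (inv_mono (Nat.floor_le_floor (mul_le_mul_of_nonneg_right hi
    (Nat.cast_nonneg J))))

/-- A monotone family of bad properties. -/
theorem zc_nol {Good : ∀ J : ℕ, Fam m J → Prop} {Bad : ℕ → Stat m} {ψ : ℕ → ℝ} {Q : Stat m}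
    (hψ : ∀ i, 0 < ψ i) (i : ℕ)
    (hBad : ∀ (J : ℕ) (F : Fam m J) (A : F.Ω → Prop), Q J F A → Bad i J F A) :
    NoL (zc m Good Bad ψ) Q := by
  have hψi := hψ i
  refine ⟨ψ i / 2, by positivity, Clg.mono (J₂ := 0) (zc_not hψ i) ?_⟩
  intro J _ F A hA B hB hP hQ
  exact hA B hB hP (hBad J F B hQ)

theorem BadC.mono_scale {i : Fin m} {g g' : ℝ} (hg : g' ≤ g) {F : Fam m J} {B : F.Ω → Prop}
    (h : BadC i g J F B) : BadC i g' J F B := by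
  obtain ⟨n, s, h⟩ := h
  refine ⟨n, s, fun ω hω => ⟨(h ω hω).1, (h ω hω).2.1, (h ω hω).2.2.trans ?_⟩⟩
  exact inv_mono (Nat.floor_le_floor (mul_le_mul_of_nonneg_right hg (Nat.cast_nonneg J)))

/-- **(PZO)** -/
theorem pzo_thm (hZ : ZRTStmt) : PZOStmt := by
  classical
  intro hSTP hSLP i₀ iu iN hcov r g h hr hg hgh hh ψ hψ B₀ x hB₀ hx hxg δ hδ
  obtain ⟨S, hS⟩ : ∃ S : FCl 3, S = pz i₀ iu iN r g h ψ := ⟨_, rfl⟩
  have hsps : SPS S 1 := by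
    rw [hS]
    exact zc_sps hψ fun i J F A hA => Or.inl (Or.inl hA)
  have htls : TLS S := by
    rw [hS]
    exact zc_tls hr hψ fun i J F A hA => Or.inl (Or.inr hA)
  have hleaf : LEAF S := leaf_thm (chs_of_tls htls) (row_cls htls) (hSTP S hsps) (hSLP S hsps)
  have hC0 : ∀ g' : ℝ, 0 < g' → NoL S (BadC i₀ g') := by
    intro g' hg'
    obtain ⟨i, hi⟩ := exists_inv hg'
    rw [hS]
    exact zc_nol hψ i fun J F A hA => Or.inr (Or.inl (hA.mono_scale hi))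
  have hCN : ∀ g' : ℝ, 0 < g' → NoL S (BadC iN g') := by
    intro g' hg'
    obtain ⟨i, hi⟩ := exists_inv hg'
    rw [hS]
    exact zc_nol hψ i fun J F A hA => Or.inr (Or.inr (Or.inl (hA.mono_scale hi)))
  have hT : NoL S (Tilt i₀ iu iN g h) := by
    rw [hS]
    exact zc_nol hψ 0 fun J F A hA => Or.inr (Or.inr (Or.inr hA))
  have hrz := hZ S i₀ iu iN hcov hleaf hsps hC0 hCN g h hg hgh hh hT x hx hxg
  rw [hS] at hrz
  obtain ⟨η, hη, n, J₁, hcore⟩ := zcl_core (Good := fun _ _ => True)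
    (Bad := pzBad i₀ iu iN r g h) hψ sup_pzBad hrz hB₀ (half_pos hδ)
  -- the resolution
  obtain ⟨J₂, hJ₂⟩ : ∃ J₂ : ℕ, ∀ J ≥ J₂, ∀ i ≤ n, ((J + 10 : ℕ) : ℝ) ≤ Real.exp (ψ i * J) := by
    have key : ∀ i : ℕ, ∃ J₂ : ℕ, ∀ J ≥ J₂, ((J + 10 : ℕ) : ℝ) ≤ Real.exp (ψ i * J) :=
      fun i => poly_exp (hψ i) 10
    choose J₂ hJ₂ using key
    refine ⟨∑ i ∈ range (n + 1), J₂ i, fun J hJ i hi => hJ₂ i J (le_trans ?_ hJ)⟩
    exact Finset.single_le_sum (f := J₂) (fun _ _ => Nat.zero_le _)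
      (Finset.mem_range.2 (by omega))
  refine ⟨η, hη, n, max J₁ J₂, fun J hJ G hTm hl hnot => ?_⟩
  have hJ1 : J₁ ≤ J := (le_max_left _ _).trans hJ
  have hJ2 : J₂ ≤ J := (le_max_right _ _).trans hJ
  have hp := G.isLaw
  obtain ⟨κ, c, B, hSel, hPB, hsec⟩ := hcore J hJ1 G hTm hl (fun _ _ _ _ _ => trivial) (by
    intro i hi κ c B hSel hPB hbad
    have hB0 : 0 < Pe G.p B := lt_of_lt_of_le (Real.exp_pos _) hPB
    obtain ⟨a, ha, B', -, hB', h3⟩ := lbad_glue (Ψ := pzL i₀ iu iN r g h) (i := i)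
      (fun a => glu_pzL i a) hSel hB0 fun ω hω hBω hl' => pzL_of_bad (hbad ω hω hBω hl')
    have hPB' : Real.exp (-(3 * ψ i * J)) ≤ Pe G.p B' := by
      have h1 := hJ₂ J hJ2 i hi
      have h3 : Real.exp (-(2 * ψ i * J)) ≤ Real.exp (ψ i * J) * Pe G.p B' :=
        hPB.trans (hB'.trans (mul_le_mul_of_nonneg_right h1 (Pe_nonneg hp B')))
      have h4 : Real.exp (-(3 * ψ i * J)) =
          Real.exp (-(ψ i * J)) * Real.exp (-(2 * ψ i * J)) := by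
        rw [← Real.exp_add]
        congr 1
        ring
      rw [h4]
      calc _ ≤ Real.exp (-(ψ i * J)) * (Real.exp (ψ i * J) * Pe G.p B') :=
            mul_le_mul_of_nonneg_left h3 (Real.exp_pos _).le
        _ = Pe G.p B' := by
            rw [← mul_assoc, ← Real.exp_add]
            have : -(ψ i * (J : ℝ)) + ψ i * J = 0 := by ring
            rw [this, Real.exp_zero, one_mul]
    obtain ⟨n1, n2, n3, n4, n5⟩ := hnot i hi B' hPB'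
    rcases h3 with ⟨-, h4, h5, h6⟩ | ⟨-, h4⟩ | ⟨-, h4⟩ | ⟨-, h4⟩ | ⟨-, h4⟩
    · have := n5 a h4 h5
      push_cast at h6
      exact absurd this (not_le.2 h6)
    · exact n1 h4
    · exact n2 h4
    · exact n3 h4
    · exact n4 h4)
  have hPB' : Real.exp (-(δ * J)) ≤ Pe G.p B := by
    refine (Real.exp_le_exp.2 ?_).trans hPB
    have : 0 ≤ δ / 2 * (J : ℝ) := by positivity
    linarith
  refine ⟨fun ω => B ω ∧ G.p ω ≠ 0, ?_, rot_glue hSel fun ω hω hBω hl' => hsec ω hω hBω hl'⟩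
  rw [Pe_supp]
  exact hPB'

end Pool.PZ
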