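import Pool.Agent.H35.ZCL.Leaf

/-!
# Classes of zooms, with a list of bad properties

`zl m Ψ ψ` is the class of the regular families with nearly uniform times and constant side
information, in which no event which is not too small has one of the properties `Ψ i a`,
`a ≤ J + 9`. Theorem `zoom_sec_l`: a claim for this class holds in the sections of the side
information of a family without large bad events.
-/

set_option autoImplicit false

namespace Pool.ZCL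

open Finset Real
open Pool.Agent.H49.Ent Pool.Agent.H32.Dense Pool.STK Pool.KA Pool.KSAT Pool.K2S Pool.PB

variable {m J : ℕ}

/-- The statement holds in a family if it holds in the sections of the side information. -/
def Glu (Ψ : Stat m) : Prop :=
  ∀ (J : ℕ) (G : Fam m J) (κ : Type) (c : G.Ω → κ) (B : G.Ω → Prop), Sel G c B → 0 < Pe G.p B →
    (∀ ω, 0 < G.p ω → B ω → ∀ hl : IsLaw (cond G.p c (c ω)),
      Ψ J (G.res c (c ω) hl) (fun ω' => B ω' ∧ c ω' = c ω)) →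
    Ψ J G (fun ω => B ω ∧ G.p ω ≠ 0)

/-- The statement does not see points of probability zero. -/
def Sup (Ψ : Stat m) : Prop :=
  ∀ (J : ℕ) (F : Fam m J) (A : F.Ω → Prop), Ψ J F A → Ψ J F (fun ω => A ω ∧ F.p ω ≠ 0)

/-- The list of the bad properties. -/
def lBad (Ψ : ℕ → ℕ → Stat m) (i : ℕ) : Stat m := fun J F B => ∃ a ≤ J + 9, Ψ i a J F B

/-- The class of zooms. -/
def zl (m : ℕ) (Ψ : ℕ → ℕ → Stat m) (ψ : ℕ → ℝ) : FCl m :=
  zc m (fun _ _ => True) (lBad Ψ) ψ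

/-- In the class of zooms there are no large bad events. -/
theorem zl_not {Ψ : ℕ → ℕ → Stat m} {ψ : ℕ → ℝ} (hψ : ∀ i, 0 < ψ i) (i : ℕ) :
    Clg (zl m Ψ ψ) (fun J F A => ∀ B : F.Ω → Prop, Sub B A →
      Real.exp (-(ψ i / 2 * J)) * Pe F.p A ≤ Pe F.p B → ∀ a ≤ J + 9, ¬ Ψ i a J F B) := by
  have hψi := hψ i
  refine Clg.of (τ := min (1 / ((i : ℝ) + 1)) (ψ i / 2))
    (lt_min (by positivity) (by positivity)) 0 fun J _ F A hS => ?_
  intro B hB hPB a ha hBad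
  have hJ : (0 : ℝ) ≤ J := Nat.cast_nonneg J
  have hiτ : (i : ℝ) * min (1 / ((i : ℝ) + 1)) (ψ i / 2) ≤ 1 := by
    have h1 : min (1 / ((i : ℝ) + 1)) (ψ i / 2) ≤ 1 / ((i : ℝ) + 1) := min_le_left _ _
    have h2 : (0 : ℝ) ≤ i := Nat.cast_nonneg i
    calc (i : ℝ) * min (1 / ((i : ℝ) + 1)) (ψ i / 2) ≤ i * (1 / ((i : ℝ) + 1)) :=
          mul_le_mul_of_nonneg_left h1 h2
      _ ≤ 1 := by
          rw [mul_one_div, div_le_one (by positivity)]
          linarith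
  refine hS.1.2.2.2.2 i hiτ B ?_ ⟨a, ha, hBad⟩
  refine le_trans ?_ hPB
  refine le_trans ?_ (mul_le_mul_of_nonneg_left hS.2 (Real.exp_pos _).le)
  rw [← Real.exp_add]
  refine Real.exp_le_exp.2 ?_
  have h1 : min (1 / ((i : ℝ) + 1)) (ψ i / 2) * (J : ℝ) ≤ ψ i / 2 * J :=
    mul_le_mul_of_nonneg_right (min_le_right _ _) hJ
  linarith

/-- The bad properties of the sections, glued. -/
theorem lbad_glue {Ψ : ℕ → ℕ → Stat m} {i : ℕ} (hG : ∀ a, Glu (Ψ i a))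
    {G : Fam m J} {κ : Type} {c : G.Ω → κ} {B : G.Ω → Prop} (hS : Sel G c B) (hB : 0 < Pe G.p B)
    (h : ∀ ω, 0 < G.p ω → B ω → ∀ hl : IsLaw (cond G.p c (c ω)),
      lBad Ψ i J (G.res c (c ω) hl) (fun ω' => B ω' ∧ c ω' = c ω)) :
    ∃ a ≤ J + 9, ∃ B' : G.Ω → Prop, Sub B' B ∧ Pe G.p B ≤ (J + 10 : ℕ) * Pe G.p B' ∧
      Ψ i a J G B' := by
  classical
  have hp := G.isLaw
  obtain ⟨a, B', hB', hP, hsec⟩ := sec_pigeon (ι := Fin (J + 10)) hp c B hB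
    (fun a v E => ∀ hl : IsLaw (cond G.p c v), Ψ i (a : ℕ) J (G.res c v hl) E)
    (by
      intro ω hω hBω
      obtain ⟨a, ha, h1⟩ := h ω hω hBω (isLaw_sec hp c hω)
      exact ⟨⟨a, by omega⟩, fun hl => h1⟩)
  rw [Fintype.card_fin] at hP
  have hB0 : 0 < Pe G.p B' := by
    by_contra h1
    push Not at h1
    have h2 : ((J + 10 : ℕ) : ℝ) * Pe G.p B' ≤ 0 :=
      mul_nonpos_of_nonneg_of_nonpos (Nat.cast_nonneg _) h1
    linarith
  refine ⟨a, by have := a.2; omega, fun ω => B' ω ∧ G.p ω ≠ 0, fun ω hω => hB' ω hω.1, ?_, ?_⟩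
  · rw [Pe_supp]
    exact hP
  · exact hG a J G κ c B' (hS.sub hB') hB0 fun ω hω hBω hl => hsec ω hω hBω hl

/-- The polynomial factor. -/
theorem poly_exp {ψ : ℝ} (hψ : 0 < ψ) (k : ℕ) :
    ∃ J₂ : ℕ, ∀ J ≥ J₂, ((J + k : ℕ) : ℝ) ≤ Real.exp (ψ * J) := by
  obtain ⟨J₃, hJ₃⟩ := exists_nat_gt (4 / ψ ^ 2 + k)
  refine ⟨J₃, fun J hJ => ?_⟩
  have h1 : 4 / ψ ^ 2 + k < J := hJ₃.trans_le (by exact_mod_cast hJ)
  have h0 : (0 : ℝ) ≤ J := Nat.cast_nonneg J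
  have hk : (0 : ℝ) ≤ k := Nat.cast_nonneg k
  have h2 : 0 < 4 / ψ ^ 2 := by positivity
  have h3 : 4 / ψ ^ 2 ≤ J := by linarith
  rw [div_le_iff₀ (by positivity)] at h3
  have h4 : (ψ * J) ^ 2 / 2 ≤ Real.exp (ψ * J) := by
    have h5 := Real.quadratic_le_exp_of_nonneg (x := ψ * J) (by positivity)
    have h6 : 0 ≤ ψ * (J : ℝ) := by positivity
    linarith
  have h7 : (2 : ℝ) * J ≤ (ψ * J) ^ 2 / 2 := by
    have e1 : (ψ * (J : ℝ)) ^ 2 / 2 = J * (J * ψ ^ 2) / 2 := by ring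
    rw [e1]
    nlinarith
  push_cast
  linarith

/-- **Claims in the sections of a family with side information**, for the class of zooms with a
list of bad properties. The bad properties are used at finitely many scales only. -/
theorem zoom_sec_l {Ψ : ℕ → ℕ → Stat m} (hG : ∀ i a, Glu (Ψ i a)) (hI : ∀ i a, Sup (Ψ i a))
    {ψ : ℕ → ℝ} (hψ : ∀ i, 0 < ψ i) {Φ : Stat m}
    (hΦ : Clg (zl m Ψ ψ) Φ) {B₀ : ℝ} (hB₀ : 0 < B₀) {δ : ℝ} (hδ : 0 < δ) :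
    ∃ η > 0, ∃ n J₁ : ℕ, ∀ J ≥ J₁, ∀ G : Fam m J, G.Tm (η * J) →
      (∀ z, 0 < law G.p G.Z z → H (cond G.p G.Z z) G.l ≤ B₀ * J) →
      (∀ i ≤ n, ∀ B : G.Ω → Prop, Real.exp (-(3 * ψ i * J)) ≤ Pe G.p B →
        ∀ a ≤ J + 9, ¬ Ψ i a J G B) →
      ∃ (κ : Type) (c : G.Ω → κ) (B : G.Ω → Prop), Sel G c B ∧
        Real.exp (-(δ * J)) ≤ Pe G.p B ∧
        ∀ ω, 0 < G.p ω → B ω → ∀ h : IsLaw (cond G.p c (c ω)),
          Φ J (G.res c (c ω) h) (fun ω' => B ω' ∧ c ω' = c ω) := by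
  classical
  obtain ⟨η, hη, n, J₁, hcore⟩ := zcl_core (Good := fun _ _ => True) (Bad := lBad Ψ)
    hψ (fun i J F A ⟨a, ha, h⟩ => ⟨a, ha, hI i a J F A h⟩) hΦ hB₀ hδ
  -- the resolution
  obtain ⟨J₂, hJ₂⟩ : ∃ J₂ : ℕ, ∀ J ≥ J₂, ∀ i ≤ n, ((J + 10 : ℕ) : ℝ) ≤ Real.exp (ψ i * J) := by
    have key : ∀ i : ℕ, ∃ J₂ : ℕ, ∀ J ≥ J₂, ((J + 10 : ℕ) : ℝ) ≤ Real.exp (ψ i * J) :=
      fun i => poly_exp (hψ i) 10
    choose J₂ hJ₂ using key
    refine ⟨∑ i ∈ range (n + 1), J₂ i, fun J hJ i hi => hJ₂ i J (le_trans ?_ hJ)⟩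
    exact Finset.single_le_sum (f := J₂) (fun _ _ => Nat.zero_le _)
      (Finset.mem_range.2 (by omega))
  refine ⟨η, hη, n, max J₁ J₂, fun J hJ G hTm hl hnot => ?_⟩
  have hJ1 : J₁ ≤ J := (le_max_left _ _).trans hJ
  have hJ2 : J₂ ≤ J := (le_max_right _ _).trans hJ
  have hp := G.isLaw
  refine hcore J hJ1 G hTm hl (fun _ _ _ _ _ => trivial) ?_
  intro i hi κ c B hSel hPB hbad
  have hB0 : 0 < Pe G.p B := lt_of_lt_of_le (Real.exp_pos _) hPB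
  obtain ⟨a, ha, B', -, hB', h3⟩ := lbad_glue (hG i) hSel hB0 hbad
  refine hnot i hi B' ?_ a ha h3
  have h1 := hJ₂ J hJ2 i hi
  have h3 : Real.exp (-(2 * ψ i * J)) ≤ Real.exp (ψ i * J) * Pe G.p B' :=
    hPB.trans (hB'.trans (mul_le_mul_of_nonneg_right h1 (Pe_nonneg hp B')))
  have h4 : Real.exp (-(3 * ψ i * J)) =
      Real.exp (-(ψ i * J)) * Real.exp (-(2 * ψ i * J)) := by
    rw [← Real.exp_add]
    congr 1
    ring
  rw [h4]
  calc _ ≤ Real.exp (-(ψ i * J)) * (Real.exp (ψ i * J) * Pe G.p B') :=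
        mul_le_mul_of_nonneg_left h3 (Real.exp_pos _).le
    _ = Pe G.p B' := by
        rw [← mul_assoc, ← Real.exp_add]
        have : -(ψ i * (J : ℝ)) + ψ i * J = 0 := by ring
        rw [this, Real.exp_zero, one_mul]

/-- A statement in the sections which glues, on an event of the family; the statement may depend
on a parameter of a finite type. -/
theorem sec_out {ι : Type} [Fintype ι] {Φ : ι → Stat m} (hG : ∀ a, Glu (Φ a)) {δ : ℝ}
    (hδ : 0 < δ) : ∃ J₁ : ℕ, ∀ J ≥ J₁, ∀ G : Fam m J, ∀ (κ : Type) (c : G.Ω → κ)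
      (B : G.Ω → Prop), Sel G c B → Real.exp (-(δ / 2 * J)) ≤ Pe G.p B →
      (∀ ω, 0 < G.p ω → B ω → ∀ h : IsLaw (cond G.p c (c ω)),
        ∃ a, Φ a J (G.res c (c ω) h) (fun ω' => B ω' ∧ c ω' = c ω)) →
      ∃ (a : ι) (B' : G.Ω → Prop), Sub B' B ∧ Real.exp (-(δ * J)) ≤ Pe G.p B' ∧ Φ a J G B' := by
  classical
  obtain ⟨M, hM⟩ : ∃ M : ℕ, M = Fintype.card ι := ⟨_, rfl⟩
  obtain ⟨J₃, hJ₃⟩ := exists_nat_gt (2 * |Real.log (M + 1)| / δ)
  refine ⟨J₃, fun J hJ G κ c B hSel hPB hsec => ?_⟩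
  have hp := G.isLaw
  have hB0 : 0 < Pe G.p B := lt_of_lt_of_le (Real.exp_pos _) hPB
  obtain ⟨a, B', hB', hP, hsec'⟩ := sec_pigeon (ι := ι) hp c B hB0
    (fun a v E => ∀ hl : IsLaw (cond G.p c v), Φ a J (G.res c v hl) E)
    (by
      intro ω hω hBω
      obtain ⟨a, h1⟩ := hsec ω hω hBω (isLaw_sec hp c hω)
      exact ⟨a, fun hl => h1⟩)
  rw [← hM] at hP
  have hPB' : Real.exp (-(δ * J)) ≤ Pe G.p B' := by
    have h1 : 2 * |Real.log (M + 1)| / δ < J := hJ₃.trans_le (by exact_mod_cast hJ)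
    rw [div_lt_iff₀ hδ] at h1
    have h2 : Real.log (M + 1) ≤ δ / 2 * J := by
      have := le_abs_self (Real.log ((M : ℝ) + 1))
      linarith
    rw [Real.log_le_iff_le_exp (by positivity)] at h2
    have h3 : Real.exp (-(δ / 2 * J)) ≤ Real.exp (δ / 2 * J) * Pe G.p B' :=
      hPB.trans (hP.trans (mul_le_mul_of_nonneg_right (by linarith) (Pe_nonneg hp B')))
    have h4 : Real.exp (-(δ * J)) = Real.exp (-(δ / 2 * J)) * Real.exp (-(δ / 2 * J)) := by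
      rw [← Real.exp_add]
      congr 1
      ring
    rw [h4]
    calc _ ≤ Real.exp (-(δ / 2 * J)) * (Real.exp (δ / 2 * J) * Pe G.p B') :=
          mul_le_mul_of_nonneg_left h3 (Real.exp_pos _).le
      _ = Pe G.p B' := by
          rw [← mul_assoc, ← Real.exp_add]
          have : -(δ / 2 * (J : ℝ)) + δ / 2 * J = 0 := by ring
          rw [this, Real.exp_zero, one_mul]
  have hB0' : 0 < Pe G.p B' := lt_of_lt_of_le (Real.exp_pos _) hPB'
  refine ⟨a, fun ω => B' ω ∧ G.p ω ≠ 0, fun ω hω => hB' ω hω.1, ?_, ?_⟩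
  · rw [Pe_supp]
    exact hPB'
  · exact hG a J G κ c B' (hSel.sub hB') hB0' fun ω hω hBω hl => hsec' ω hω hBω hl

/-! ### Statements which glue -/

theorem glu_plu (j : ℕ) (g : ℝ) :
    Glu (fun J F B => PlU j (1 / 2 ^ ⌊g * J⌋₊) (Fam.pt F) F.d B : Stat m) :=
  fun _ _ _ _ _ hS _ h => plu_glue hS h

theorem sup_plu (j : ℕ) (g : ℝ) :
    Sup (fun J F B => PlU j (1 / 2 ^ ⌊g * J⌋₊) (Fam.pt F) F.d B : Stat m) :=
  fun _ _ A h => PlU.hered _ _ _ _ A _ (fun _ hω => hω.1) h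

/-- The tail above the row `P` is almost full. -/
def BadTP (m : ℕ) (r η : ℝ) (P : ℕ) : Stat m := fun J F B => P ≤ J ∧ J ≤ 2 * P ∧
  (m * Real.log 2 - r) * ((J : ℝ) - P) + η * J <
    CH (Pool.Agent.H49.Ent.cond F.p B True) (F.X J) (fun ω => (F.X P ω, F.W ω))

theorem sup_tail (r η : ℝ) (P : ℕ) : Sup (BadTP m r η P) := by
  rintro J F A ⟨h1, h2, h3⟩
  refine ⟨h1, h2, ?_⟩
  rw [cond_supp]
  exact h3

theorem glu_tail (r η : ℝ) (P : ℕ) : Glu (BadTP m r η P) := by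
  intro J G κ c B hS hB h
  have hp := G.isLaw
  obtain ⟨ω₀, h1, h2⟩ : ∃ ω, 0 < G.p ω ∧ B ω := by
    by_contra hcon
    push Not at hcon
    have : Pe G.p B ≤ 0 := by
      rw [Pe_eq]
      refine Finset.sum_nonpos fun ω _ => ?_
      split_ifs with hω
      · by_contra h3
        push Not at h3
        exact hcon ω h3 hω
      · exact le_rfl
    linarith
  have h3 := h ω₀ h1 h2 (isLaw_sec hp c h1)
  refine ⟨h3.1, h3.2.1, ?_⟩
  rw [cond_supp]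
  refine ch_glue hp _ _ c B hB ?_ fun ω hω hBω => ?_
  · intro ω ω' _ _ h5 h6 h7
    exact hS.2 ω ω' h5 h6 (Prod.ext_iff.1 (Prod.ext_iff.1 h7).2).2
  · exact (h ω hω hBω (isLaw_sec hp c hω)).2.2

end Pool.ZCL
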